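import Pool.Agent.X86.TH.Def

/-! # The rank-one convex hull and the nested `T₄` iteration -/

set_option autoImplicit false

namespace Pool.Agent.X86.TH

/-- The rank-one convex hull: `f A ≤ 0` for every rank-one convex `f` vanishing on `K`. -/
def convRC (K : Set Tri) : Set Tri :=
  {A | ∀ f : Tri → ℝ, RCConvex f → (∀ B ∈ K, f B = 0) → f A ≤ 0}

/-- One step of the iteration: `S` itself, the hulls of all `T₄` configurations in `S` and all
segments joining rank-one connected points of `S`. -/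
def stepB (S : Set Tri) : Set Tri :=
  S ∪ {q | ∃ A : Fin 4 → Tri, (∀ j, A j ∈ S) ∧ IsT4 A ∧ q ∈ convRC (Set.range A)} ∪
  {q | ∃ A ∈ S, ∃ B ∈ S, RankOne (B - A) ∧ q ∈ segment ℝ A B}

/-- The sets `K⁽ⁱ⁾`. -/
def iterB (K : Set Tri) : ℕ → Set Tri
  | 0 => K
  | i + 1 => stepB (iterB K i)

/-- The `T₄`-convex hull. -/
def convT4 (K : Set Tri) : Set Tri := ⋃ i, iterB K i

end Pool.Agent.X86.TH
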