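import Pool.Agent.X86.TH.Def

/-! # Piecewise bilinear rank-one convex functions -/

set_option autoImplicit false

open Set

namespace Pool.Agent.X86.TH

noncomputable def c01 (t : ℝ) : ℝ := max 0 (min 1 t)

lemma c01_eq (t : ℝ) : c01 t = max t 0 - max (t - 1) 0 := by
  unfold c01
  rcases le_total t 0 with h | h
  · rw [min_eq_right (by linarith), max_eq_left h, max_eq_right h, max_eq_right (by linarith)]
    ring
  · rcases le_total t 1 with h1 | h1
    · rw [min_eq_right h1, max_eq_right h, max_eq_left h, max_eq_right (by linarith)]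
      ring
    · rw [min_eq_left h1, max_eq_right zero_le_one, max_eq_left h, max_eq_left (by linarith)]
      ring

lemma c01_nonneg (t : ℝ) : 0 ≤ c01 t := le_max_left _ _

lemma c01_le_one (t : ℝ) : c01 t ≤ 1 := max_le zero_le_one (min_le_left _ _)

lemma c01_mono {s t : ℝ} (h : s ≤ t) : c01 s ≤ c01 t :=
  max_le_max le_rfl (min_le_min le_rfl h)

lemma c01_of_nonpos {t : ℝ} (h : t ≤ 0) : c01 t = 0 := by
  unfold c01
  rw [min_eq_right (by linarith), max_eq_left h]

lemma c01_of_one_le {t : ℝ} (h : 1 ≤ t) : c01 t = 1 := by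
  unfold c01
  rw [min_eq_left h, max_eq_right zero_le_one]

/-- the hat functions at the nodes `-1, 0, …, 4` -/
noncomputable def psi (k : Fin 6) (x : ℝ) : ℝ :=
  ![1 - c01 (x + 1), c01 (x + 1) - c01 x, c01 x - c01 (x - 1), c01 (x - 1) - c01 (x - 2),
    c01 (x - 2) - c01 (x - 3), c01 (x - 3)] k

noncomputable def pen (x : ℝ) : ℝ := max (x - 4) 0 + max (-1 - x) 0

lemma psi_nonneg (k : Fin 6) (x : ℝ) : 0 ≤ psi k x := by
  have h1 := c01_le_one (x + 1)
  have h2 := c01_mono (show x ≤ x + 1 by linarith)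
  have h3 := c01_mono (show x - 1 ≤ x by linarith)
  have h4 := c01_mono (show x - 2 ≤ x - 1 by linarith)
  have h5 := c01_mono (show x - 3 ≤ x - 2 by linarith)
  have h6 := c01_nonneg (x - 3)
  fin_cases k <;> simp [psi] <;> linarith

lemma psi_sum (x : ℝ) : ∑ k, psi k x = 1 := by
  rw [Fin.sum_univ_six]
  simp [psi]

lemma psi_zero_of_ge {k : Fin 6} (hk : (k : ℕ) ≤ 4) {x : ℝ} (hx : (k : ℕ) ≤ x) : psi k x = 0 := by
  fin_cases k
  · simp at hx
    simp [psi, c01_of_one_le (show 1 ≤ x + 1 by linarith)]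
  · simp at hx
    simp [psi, c01_of_one_le (show 1 ≤ x + 1 by linarith), c01_of_one_le hx]
  · simp at hx
    simp [psi, c01_of_one_le (show 1 ≤ x by linarith), c01_of_one_le (show 1 ≤ x - 1 by linarith)]
  · simp at hx
    simp [psi, c01_of_one_le (show 1 ≤ x - 1 by linarith),
      c01_of_one_le (show 1 ≤ x - 2 by linarith)]
  · simp at hx
    simp [psi, c01_of_one_le (show 1 ≤ x - 2 by linarith),
      c01_of_one_le (show 1 ≤ x - 3 by linarith)]
  · simp at hk

lemma psi_zero_of_le {k : Fin 6} (hk : 1 ≤ (k : ℕ)) {x : ℝ} (hx : x ≤ (k : ℕ) - 2) :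
    psi k x = 0 := by
  fin_cases k
  · simp at hk
  · simp at hx
    simp [psi, c01_of_nonpos (show x + 1 ≤ 0 by linarith), c01_of_nonpos (show x ≤ 0 by linarith)]
  · simp at hx
    simp [psi, c01_of_nonpos (show x ≤ 0 by linarith),
      c01_of_nonpos (show x - 1 ≤ 0 by linarith)]
  · simp at hx
    simp [psi, c01_of_nonpos (show x - 1 ≤ 0 by linarith),
      c01_of_nonpos (show x - 2 ≤ 0 by linarith)]
  · simp at hx
    simp [psi, c01_of_nonpos (show x - 2 ≤ 0 by linarith),
      c01_of_nonpos (show x - 3 ≤ 0 by linarith)]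
  · simp at hx
    simp [psi, c01_of_nonpos (show x - 3 ≤ 0 by linarith)]

lemma psi_disj {k l : Fin 6} (h : (k : ℕ) + 2 ≤ l) (x : ℝ) : psi k x = 0 ∨ psi l x = 0 := by
  rcases le_total ((k : ℕ) : ℝ) x with hx | hx
  · exact Or.inl (psi_zero_of_ge (by omega) hx)
  · refine Or.inr (psi_zero_of_le (by omega) ?_)
    have : ((k : ℕ) : ℝ) + 2 ≤ ((l : ℕ) : ℝ) := by exact_mod_cast h
    linarith

lemma psi_node (k l : Fin 6) : psi k ((l : ℕ) - 1) = if k = l then 1 else 0 := by
  fin_cases k <;> fin_cases l <;> norm_num [psi, c01]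

lemma pen_node (l : Fin 6) : pen ((l : ℕ) - 1) = 0 := by
  fin_cases l <;> norm_num [pen]

/-- discrete convexity of six values, with slopes at least `-M` and at most `M` -/
def Conv1 (M : ℝ) (a : Fin 6 → ℝ) : Prop :=
  0 ≤ M + (a 1 - a 0) ∧ 0 ≤ M + (a 4 - a 5) ∧ 0 ≤ a 0 - 2 * a 1 + a 2 ∧
    0 ≤ a 1 - 2 * a 2 + a 3 ∧ 0 ≤ a 2 - 2 * a 3 + a 4 ∧ 0 ≤ a 3 - 2 * a 4 + a 5

lemma convexOn_hinge (c : ℝ) {s : ℝ} (hs : 0 ≤ s) :
    ConvexOn ℝ univ (fun x : ℝ => s * max (x - c) 0) := by
  have h1 : ConvexOn ℝ univ (fun x : ℝ => max (x - c) 0) :=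
    ((convexOn_id convex_univ).sub (concaveOn_const c convex_univ)).sup
      (convexOn_const 0 convex_univ)
  exact h1.smul hs

lemma convexOn_interp {M : ℝ} {a : Fin 6 → ℝ} (h : Conv1 M a) :
    ConvexOn ℝ univ (fun x : ℝ => (∑ k, a k * psi k x) + M * pen x) := by
  obtain ⟨h0, h5, h1, h2, h3, h4⟩ := h
  have key : (fun x : ℝ => (∑ k, a k * psi k x) + M * pen x) = fun x : ℝ =>
      (a 0 - M + (-M) * x) + ((M + (a 1 - a 0)) * max (x - (-1)) 0
      + ((a 0 - 2 * a 1 + a 2) * max (x - 0) 0 + ((a 1 - 2 * a 2 + a 3) * max (x - 1) 0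
      + ((a 2 - 2 * a 3 + a 4) * max (x - 2) 0 + ((a 3 - 2 * a 4 + a 5) * max (x - 3) 0
      + (M + (a 4 - a 5)) * max (x - 4) 0))))) := by
    funext x
    rw [Fin.sum_univ_six]
    have e0 : psi 0 x = 1 - c01 (x + 1) := rfl
    have e1 : psi 1 x = c01 (x + 1) - c01 x := rfl
    have e2 : psi 2 x = c01 x - c01 (x - 1) := rfl
    have e3 : psi 3 x = c01 (x - 1) - c01 (x - 2) := rfl
    have e4 : psi 4 x = c01 (x - 2) - c01 (x - 3) := rfl
    have e5 : psi 5 x = c01 (x - 3) := rfl
    have e6 : max (-1 - x) 0 = (-1 - x) + max (x - (-1)) 0 := by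
      rcases le_total x (-1) with h | h
      · rw [max_eq_left (by linarith), max_eq_right (by linarith)]; ring
      · rw [max_eq_right (by linarith), max_eq_left (by linarith)]; ring
    rw [e0, e1, e2, e3, e4, e5, pen, e6]
    simp only [c01_eq]
    have f1 : x + 1 = x - (-1) := by ring
    have f2 : x - (-1) - 1 = x - 0 := by ring
    have f3 : x - 1 - 1 = x - 2 := by ring
    have f4 : x - 2 - 1 = x - 3 := by ring
    have f5 : x - 3 - 1 = x - 4 := by ring
    have f6 : max x 0 = max (x - 0) 0 := by rw [sub_zero]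
    rw [f1, f2, f3, f4, f5, f6]
    ring
  rw [key]
  have hlin : ConvexOn ℝ univ (fun x : ℝ => a 0 - M + (-M) * x) := by
    refine ⟨convex_univ, fun x _ y _ s t _ _ hst => le_of_eq ?_⟩
    simp only [smul_eq_mul]
    have : s = 1 - t := by linarith
    subst this
    ring
  exact hlin.add ((convexOn_hinge _ h0).add ((convexOn_hinge _ h1).add ((convexOn_hinge _ h2).add
    ((convexOn_hinge _ h3).add ((convexOn_hinge _ h4).add (convexOn_hinge _ h5))))))

/-- the piecewise bilinear function with given values at the nodes, with a penalty outside -/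
noncomputable def V (f : Fin 6 → Fin 6 → ℝ) (M x y : ℝ) : ℝ :=
  (∑ k, ∑ l, f k l * (psi k x * psi l y)) + M * pen x + M * pen y

lemma Conv1.comb {M : ℝ} {f : Fin 6 → Fin 6 → ℝ} (h : ∀ l, Conv1 M (fun k => f k l)) (y : ℝ) :
    Conv1 M (fun k => ∑ l, f k l * psi l y) := by
  have hM : M = ∑ l, M * psi l y := by rw [← Finset.mul_sum, psi_sum, mul_one]
  have key : ∀ g : Fin 6 → ℝ, (∀ l, 0 ≤ g l) → 0 ≤ ∑ l, g l * psi l y := fun g hg =>
    Finset.sum_nonneg fun l _ => mul_nonneg (hg l) (psi_nonneg l y)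
  refine ⟨?_, ?_, ?_, ?_, ?_, ?_⟩
  · refine (key _ fun l => (h l).1).trans (le_of_eq ?_)
    simp only [add_mul, sub_mul, Finset.sum_add_distrib, Finset.sum_sub_distrib, ← hM]
  · refine (key _ fun l => (h l).2.1).trans (le_of_eq ?_)
    simp only [add_mul, sub_mul, Finset.sum_add_distrib, Finset.sum_sub_distrib, ← hM]
  · refine (key _ fun l => (h l).2.2.1).trans (le_of_eq ?_)
    simp only [add_mul, sub_mul, mul_assoc, Finset.sum_add_distrib, Finset.sum_sub_distrib,
      Finset.mul_sum]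
  · refine (key _ fun l => (h l).2.2.2.1).trans (le_of_eq ?_)
    simp only [add_mul, sub_mul, mul_assoc, Finset.sum_add_distrib, Finset.sum_sub_distrib,
      Finset.mul_sum]
  · refine (key _ fun l => (h l).2.2.2.2.1).trans (le_of_eq ?_)
    simp only [add_mul, sub_mul, mul_assoc, Finset.sum_add_distrib, Finset.sum_sub_distrib,
      Finset.mul_sum]
  · refine (key _ fun l => (h l).2.2.2.2.2).trans (le_of_eq ?_)
    simp only [add_mul, sub_mul, mul_assoc, Finset.sum_add_distrib, Finset.sum_sub_distrib,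
      Finset.mul_sum]

lemma convexOn_V_left {f : Fin 6 → Fin 6 → ℝ} {M : ℝ} (h : ∀ l, Conv1 M (fun k => f k l))
    (y : ℝ) : ConvexOn ℝ univ (fun x => V f M x y) := by
  have e : (fun x => V f M x y) = fun x =>
      ((∑ k, (∑ l, f k l * psi l y) * psi k x) + M * pen x) + M * pen y := by
    funext x
    unfold V
    congr 2
    refine Finset.sum_congr rfl fun k _ => ?_
    rw [Finset.sum_mul]
    exact Finset.sum_congr rfl fun l _ => by ring
  rw [e]
  exact (convexOn_interp (Conv1.comb h y)).add (convexOn_const _ convex_univ)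

lemma V_swap (f : Fin 6 → Fin 6 → ℝ) (M x y : ℝ) : V f M x y = V (fun k l => f l k) M y x := by
  unfold V
  rw [Finset.sum_comm]
  have : ∀ k l, f l k * (psi l x * psi k y) = f l k * (psi k y * psi l x) := fun k l => by ring
  simp only [this]
  ring

lemma convexOn_V_right {f : Fin 6 → Fin 6 → ℝ} {M : ℝ} (h : ∀ k, Conv1 M (fun l => f k l))
    (x : ℝ) : ConvexOn ℝ univ (fun y => V f M x y) := by
  simp only [V_swap f M x]
  exact convexOn_V_left h x

lemma comp_line {g : ℝ → ℝ} (hg : ConvexOn ℝ univ g) (p q r s : ℝ) :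
    ConvexOn ℝ univ (fun t : ℝ => (r + t * s) + g (p + t * q)) := by
  refine ⟨convex_univ, fun x _ y _ a b ha hb hab => ?_⟩
  have h := hg.2 (mem_univ (p + x * q)) (mem_univ (p + y * q)) ha hb hab
  simp only [smul_eq_mul] at h ⊢
  have e1 : a * (p + x * q) + b * (p + y * q) = p + (a * x + b * y) * q := by
    linear_combination p * hab
  rw [e1] at h
  have e2 : r + (a * x + b * y) * s = a * (r + x * s) + b * (r + y * s) := by
    linear_combination -r * hab
  rw [e2]
  linarith

lemma rcConvex_V {f : Fin 6 → Fin 6 → ℝ} {M : ℝ} (h1 : ∀ l, Conv1 M (fun k => f k l))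
    (h2 : ∀ k, Conv1 M (fun l => f k l)) (L : ℝ) :
    RCConvex (fun q => L * q.2.2 + V f M q.1 q.2.1) := by
  rintro ⟨x, y, z⟩ ⟨a, b, c⟩ ⟨-, hC⟩
  simp only [Prod.smul_mk, Prod.mk_add_mk, smul_eq_mul] at hC ⊢
  rcases mul_eq_zero.mp hC with ha | hb
  · subst ha
    have := comp_line (convexOn_V_right h2 x) y b (L * z) (L * c)
    refine this.congr ?_
    intro t _
    simp only [mul_zero, add_zero]
    ring
  · subst hb
    have := comp_line (convexOn_V_left h1 y) x a (L * z) (L * c)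
    refine this.congr ?_
    intro t _
    simp only [mul_zero, add_zero]
    ring

lemma V_node (f : Fin 6 → Fin 6 → ℝ) (M : ℝ) (k l : Fin 6) :
    V f M ((k : ℕ) - 1) ((l : ℕ) - 1) = f k l := by
  unfold V
  rw [pen_node, pen_node]
  simp [psi_node]

end Pool.Agent.X86.TH
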