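import Pool.Agent.X86.TH.Conv

/-! # The explicit barrier functions -/

set_option autoImplicit false

open Set

namespace Pool.Agent.X86.TH

/-- the upper barrier at the nodes -/
def U : Fin 6 → Fin 6 → ℤ :=
  ![![-16, -10, -5, -1, -16, -32], ![0, 0, 0, 0, -9, -19], ![-5, 0, 4, 1, -3, -8],
    ![-11, 0, 2, 2, 2, 2], ![-18, 0, 0, 0, -1, -3], ![-26, 0, -3, -7, -12, -18]]

/-- the perturbations at the nodes -/
def w : Fin 6 → Fin 6 → Fin 6 → ℤ :=
  ![![![0, 0, 0, 0, 0, 0], ![0, 6, 12, 18, 0, 0], ![0, 112, 0, 36, 0, 0],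
      ![0, 218, 81, 54, 27, 0], ![0, 324, 162, 0, 0, 0], ![0, 430, 0, 0, 0, 0]],
    ![![0, 0, 0, 0, 0, 0], ![0, 4, 8, 12, 0, 0], ![0, 3, 0, 24, 0, 0], ![0, 2, 54, 36, 18, 0],
      ![0, 1, 108, 215, 0, 0], ![0, 0, 0, 0, 0, 0]],
    ![![0, 0, 0, 0, 0, 0], ![0, 8, 16, 24, 0, 0], ![0, 6, 215, 48, 0, 0],
      ![0, 4, 108, 72, 36, 0], ![0, 2, 1, 0, 0, 0], ![0, 0, 0, 0, 0, 0]],
    ![![0, 0, 0, 0, 0, 0], ![0, 16, 32, 48, 0, 0], ![0, 12, 0, 96, 0, 0],
      ![0, 8, 1, 144, 287, 430], ![0, 4, 2, 0, 0, 0], ![0, 0, 0, 0, 0, 0]],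
    ![![0, 0, 0, 215, 0, 0], ![0, 48, 96, 144, 0, 0], ![0, 36, 0, 73, 0, 0],
      ![0, 24, 3, 2, 1, 0], ![0, 12, 6, 0, 0, 0], ![0, 0, 0, 0, 0, 0]],
    ![![0, 0, 0, 0, 0, 0], ![215, 144, 73, 2, 0, 0], ![0, 108, 0, 4, 0, 0],
      ![0, 72, 9, 6, 3, 0], ![0, 36, 18, 0, 0, 0], ![0, 0, 0, 0, 0, 0]]]

/-- node coordinates of the six main points -/
def kx : Fin 6 → Fin 6 := ![5, 4, 2, 3, 0, 1]

def ky : Fin 6 → Fin 6 := ![1, 3, 2, 5, 3, 0]

def ConvZ (a : Fin 6 → ℤ) : Prop :=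
  0 ≤ 23000 + (a 1 - a 0) ∧ 0 ≤ 23000 + (a 4 - a 5) ∧ 0 ≤ a 0 - 2 * a 1 + a 2 ∧
    0 ≤ a 1 - 2 * a 2 + a 3 ∧ 0 ≤ a 2 - 2 * a 3 + a 4 ∧ 0 ≤ a 3 - 2 * a 4 + a 5

instance (a : Fin 6 → ℤ) : Decidable (ConvZ a) := by unfold ConvZ; infer_instance

lemma conv_row0 : ∀ l, ConvZ (fun k => -860 * U k l) := by decide +kernel
lemma conv_col0 : ∀ k, ConvZ (fun l => -860 * U k l) := by decide +kernel
lemma conv_row : ∀ j l, ConvZ (fun k => -860 * U k l + w j k l) := by decide +kernel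
lemma conv_col : ∀ j k, ConvZ (fun l => -860 * U k l + w j k l) := by decide +kernel
lemma w_nonneg : ∀ j k l, 0 ≤ w j k l := by decide +kernel
lemma w_le : ∀ i j k l, (k = kx j ∧ l = ky j) ∨ w j k l ≤ 324 * w i k l := by decide +kernel
lemma w_main : ∀ i j, i ≠ j → w i (kx j) (ky j) = 0 := by decide +kernel
lemma w_origin : ∀ j, 4 ≤ w j 1 1 ∧ w j 1 1 ≤ 860 := by decide +kernel
lemma far : ∀ i j, i ≠ j → ((kx i : ℕ) + 2 ≤ kx j ∨ (kx j : ℕ) + 2 ≤ kx i) ∨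
    ((ky i : ℕ) + 2 ≤ ky j ∨ (ky j : ℕ) + 2 ≤ ky i) := by decide +kernel

/-- node values of the test functions -/
noncomputable def ff (j : Fin 6) (η : ℝ) (k l : Fin 6) : ℝ := -860 * (U k l : ℝ) + η * (w j k l : ℝ)

lemma conv_real {u v : Fin 6 → ℤ} (h0 : ConvZ (fun k => -860 * u k))
    (h1 : ConvZ (fun k => -860 * u k + v k)) {η : ℝ} (hη : 0 ≤ η) (hη1 : η ≤ 1) :
    Conv1 23000 (fun k => -860 * (u k : ℝ) + η * (v k : ℝ)) := by
  have key : ∀ p q : ℤ, 0 ≤ p → 0 ≤ q → 0 ≤ (1 - η) * (p : ℝ) + η * (q : ℝ) := by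
    intro p q hp hq
    have hp' : (0:ℝ) ≤ p := by exact_mod_cast hp
    have hq' : (0:ℝ) ≤ q := by exact_mod_cast hq
    have : 0 ≤ 1 - η := by linarith
    positivity
  obtain ⟨a0, a1, a2, a3, a4, a5⟩ := h0
  obtain ⟨b0, b1, b2, b3, b4, b5⟩ := h1
  refine ⟨(key _ _ a0 b0).trans (le_of_eq ?_), (key _ _ a1 b1).trans (le_of_eq ?_),
    (key _ _ a2 b2).trans (le_of_eq ?_), (key _ _ a3 b3).trans (le_of_eq ?_),
    (key _ _ a4 b4).trans (le_of_eq ?_), (key _ _ a5 b5).trans (le_of_eq ?_)⟩ <;>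
  · push_cast
    ring

/-- the test functions -/
noncomputable def F (j : Fin 6) (η : ℝ) (q : Tri) : ℝ :=
  860 * q.2.2 + V (ff j η) 23000 q.1 q.2.1

lemma rcConvex_F (j : Fin 6) {η : ℝ} (hη : 0 ≤ η) (hη1 : η ≤ 1) : RCConvex (F j η) :=
  rcConvex_V (fun l => conv_real (u := fun k => U k l) (v := fun k => w j k l)
      (conv_row0 l) (conv_row j l) hη hη1)
    (fun k => conv_real (u := fun l => U k l) (v := fun l => w j k l)
      (conv_col0 k) (conv_col j k) hη hη1) 860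

/-- the point lies in the open star of the `j`-th main node -/
def Near (j : Fin 6) (q : Tri) : Prop := psi (kx j) q.1 * psi (ky j) q.2.1 ≠ 0

lemma near_unique {i j : Fin 6} {q : Tri} (hi : Near i q) (hj : Near j q) : i = j := by
  by_contra hne
  have hi1 := left_ne_zero_of_mul hi
  have hi2 := right_ne_zero_of_mul hi
  have hj1 := left_ne_zero_of_mul hj
  have hj2 := right_ne_zero_of_mul hj
  rcases far i j hne with (h | h) | (h | h)
  · exact (psi_disj h q.1).elim hi1 hj1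
  · exact (psi_disj h q.1).elim hj1 hi1
  · exact (psi_disj h q.2.1).elim hi2 hj2
  · exact (psi_disj h q.2.1).elim hj2 hi2

lemma F_compare (i j : Fin 6) {η : ℝ} (hη : 0 ≤ η) {q : Tri} (h : ¬ Near j q) :
    F j (η / 324) q ≤ F i η q := by
  unfold F V
  have : (∑ k, ∑ l, ff j (η / 324) k l * (psi k q.1 * psi l q.2.1))
      ≤ ∑ k, ∑ l, ff i η k l * (psi k q.1 * psi l q.2.1) := by
    refine Finset.sum_le_sum fun k _ => Finset.sum_le_sum fun l _ => ?_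
    rcases w_le i j k l with ⟨rfl, rfl⟩ | hw
    · rw [Near, not_not] at h
      rw [h, mul_zero, mul_zero]
    · refine mul_le_mul_of_nonneg_right ?_ (mul_nonneg (psi_nonneg _ _) (psi_nonneg _ _))
      unfold ff
      have hw' : (w j k l : ℝ) ≤ 324 * (w i k l : ℝ) := by exact_mod_cast hw
      have : η / 324 * (w j k l : ℝ) ≤ η / 324 * (324 * (w i k l : ℝ)) :=
        mul_le_mul_of_nonneg_left hw' (by positivity)
      linarith
  linarith

/-- the region below the barrier -/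
def G (η : ℝ) : Set Tri := {q | ∃ i, F i η q ≤ 0}

lemma exists_free (A : Fin 4 → Tri) : ∃ j : Fin 6, ∀ m, ¬ Near j (A m) := by
  by_contra h
  push Not at h
  choose g hg using h
  obtain ⟨i, j, hij, he⟩ := Fintype.exists_ne_map_eq_of_card_lt g (by simp)
  have h1 := hg i
  rw [he] at h1
  exact hij (near_unique h1 (hg j))

lemma hull_sub {η : ℝ} (hη : 0 ≤ η) (hη1 : η ≤ 1) {A : Fin 4 → Tri} (hA : ∀ m, A m ∈ G η)
    {q : Tri} (hq : q ∈ rcHull (Set.range A)) : q ∈ G (η / 324) := by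
  obtain ⟨j, hj⟩ := exists_free A
  have h0 : 0 ≤ η / 324 := by positivity
  obtain ⟨B, ⟨m, rfl⟩, hm⟩ := hq _ (rcConvex_F j h0 (by linarith))
  obtain ⟨i, hi⟩ := hA m
  exact ⟨j, hm.trans ((F_compare i j hη (hj m)).trans hi)⟩

lemma seg_sub {A B q : Tri} (h : RankOne (B - A)) (hq : q ∈ segment ℝ A B) :
    q ∈ rcHull (Set.range ![A, B, A, B]) := by
  intro f hf
  obtain ⟨a, b, ha, hb, hab, rfl⟩ := hq
  have hc := (hf A (B - A) h).2 (mem_univ 0) (mem_univ 1) ha hb hab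
  simp only [smul_eq_mul, mul_zero, mul_one, zero_add, zero_smul, add_zero, one_smul,
    add_sub_cancel] at hc
  have e : A + b • (B - A) = a • A + b • B := by
    have : a = 1 - b := by linarith
    rw [this]
    module
  rw [e] at hc
  rcases le_total (f A) (f B) with h1 | h1
  · refine ⟨B, ⟨1, rfl⟩, hc.trans ?_⟩
    calc a * f A + b * f B ≤ a * f B + b * f B := by
          linarith [mul_le_mul_of_nonneg_left h1 ha]
      _ = f B := by rw [← add_mul, hab, one_mul]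
  · refine ⟨A, ⟨0, rfl⟩, hc.trans ?_⟩
    calc a * f A + b * f B ≤ a * f A + b * f A := by
          linarith [mul_le_mul_of_nonneg_left h1 hb]
      _ = f A := by rw [← add_mul, hab, one_mul]

lemma step_sub {η : ℝ} (hη : 0 ≤ η) (hη1 : η ≤ 1) {S : Set Tri} (hS : S ⊆ G η) :
    step S ⊆ G (η / 324) := by
  rintro q (⟨A, hA, -, hq⟩ | ⟨A, hA, B, hB, h, hq⟩)
  · exact hull_sub hη hη1 (fun m => hS (hA m)) hq
  · refine hull_sub hη hη1 (A := ![A, B, A, B]) ?_ (seg_sub h hq)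
    intro m
    fin_cases m
    · exact hS hA
    · exact hS hB
    · exact hS hA
    · exact hS hB

lemma iter_sub {K : Set Tri} (hK : K ⊆ G 1) (n : ℕ) : iter K n ⊆ G ((1 / 324) ^ n) := by
  induction n with
  | zero =>
    show K ⊆ G ((1 / 324) ^ 0)
    rw [pow_zero]
    exact hK
  | succ n ih =>
    have h := step_sub (η := (1 / 324) ^ n) (by positivity)
      (pow_le_one₀ (by norm_num) (by norm_num)) ih
    intro q hq
    have h2 := h hq
    have e : ((1:ℝ) / 324) ^ n / 324 = (1 / 324) ^ (n + 1) := by rw [pow_succ]; ring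
    rwa [e] at h2

/-- the main points and their lower copies -/
noncomputable def main (i : Fin 6) : Tri :=
  (((kx i : ℕ) : ℝ) - 1, ((ky i : ℕ) : ℝ) - 1, (U (kx i) (ky i) : ℝ))

/-- the finite set -/
noncomputable def K0 : Set Tri :=
  Set.range main ∪ Set.range (fun i => main i - (0, 0, 1)) ∪ {(0, 0, -1)}

lemma K0_finite : K0.Finite :=
  ((Set.finite_range _).union (Set.finite_range _)).union (Set.finite_singleton _)

lemma F_node (j : Fin 6) (η : ℝ) (k l : Fin 6) (z : ℝ) :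
    F j η (((k : ℕ) : ℝ) - 1, ((l : ℕ) : ℝ) - 1, z)
      = 860 * z - 860 * (U k l : ℝ) + η * (w j k l : ℝ) := by
  unfold F
  simp only [V_node, ff]
  ring

lemma F_origin (j : Fin 6) (η z : ℝ) : F j η (0, 0, z) = 860 * z + η * (w j 1 1 : ℝ) := by
  have h := F_node j η 1 1 z
  have hU : U 1 1 = 0 := by decide
  rw [hU] at h
  norm_num at h
  linarith

lemma K0_sub : K0 ⊆ G 1 := by
  rintro q ((⟨i, rfl⟩ | ⟨i, rfl⟩) | rfl)
  · obtain ⟨j, hj⟩ : ∃ j : Fin 6, j ≠ i := exists_ne i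
    refine ⟨j, ?_⟩
    unfold main
    rw [F_node, w_main j i hj]
    simp
  · obtain ⟨j, hj⟩ : ∃ j : Fin 6, j ≠ i := exists_ne i
    refine ⟨j, ?_⟩
    have e : main i - (0, 0, 1) = (((kx i : ℕ) : ℝ) - 1, ((ky i : ℕ) : ℝ) - 1,
        (U (kx i) (ky i) : ℝ) - 1) := by
      unfold main
      simp
    simp only []
    rw [e, F_node, w_main j i hj]
    simp
  · refine ⟨0, ?_⟩
    rw [F_origin]
    have := (w_origin 0).2
    have h : ((w 0 1 1 : ℤ) : ℝ) ≤ 860 := by exact_mod_cast this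
    linarith

end Pool.Agent.X86.TH
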