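import Mathlib

/-! # The `T₄`-hull iteration for upper triangular matrices: definitions -/

set_option autoImplicit false

namespace Pool.Agent.X86.TH

/-- The upper triangular real matrix `(x z; 0 y)`, written as the triple `(x, y, z)`. -/
abbrev Tri := ℝ × ℝ × ℝ

/-- Rank one: nonzero with `x y = 0`. -/
def RankOne (C : Tri) : Prop := C ≠ 0 ∧ C.1 * C.2.1 = 0

/-- Rank-one convexity of a function on upper triangular matrices. -/
def RCConvex (f : Tri → ℝ) : Prop :=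
  ∀ A C : Tri, RankOne C → ConvexOn ℝ Set.univ (fun t : ℝ => f (A + t • C))

/-- The rank-one convex hull (of a finite set). -/
def rcHull (K : Set Tri) : Set Tri := {A | ∀ f : Tri → ℝ, RCConvex f → ∃ B ∈ K, f A ≤ f B}

/-- The points `A 0, …, A 3` (in this order) form a `T₄` configuration. -/
def IsT4 (A : Fin 4 → Tri) : Prop :=
  ∃ (P : Tri) (C : Fin 4 → Tri) (α : Fin 4 → ℝ),
    (∀ j, RankOne (C j)) ∧ C 0 + C 1 + C 2 + C 3 = 0 ∧ (∀ j, 1 ≤ α j) ∧
    A 0 = P + α 0 • C 0 ∧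
    A 1 = P + C 0 + α 1 • C 1 ∧
    A 2 = P + C 0 + C 1 + α 2 • C 2 ∧
    A 3 = P + C 0 + C 1 + C 2 + α 3 • C 3

/-- One step of the iteration: the hulls of all `T₄` configurations in `S` and all rank-one
segments with both endpoints in `S`. -/
def step (S : Set Tri) : Set Tri :=
  {q | ∃ A : Fin 4 → Tri, (∀ j, A j ∈ S) ∧ IsT4 A ∧ q ∈ rcHull (Set.range A)} ∪
  {q | ∃ A ∈ S, ∃ B ∈ S, RankOne (B - A) ∧ q ∈ segment ℝ A B}

/-- The sets `K⁽ⁱ⁾`. -/
def iter (K : Set Tri) : ℕ → Set Tri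
  | 0 => K
  | i + 1 => step (iter K i)

end Pool.Agent.X86.TH
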